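import Mathlib

open Matrix

namespace Pool.Agent.Results.MP_f34218_co.TradeSize

/-- Complex Hadamard matrices of order `n`. -/
def IsCHM {n : ℕ} (H : Matrix (Fin n) (Fin n) ℂ) : Prop :=
  (∀ i j, ‖H i j‖ = 1) ∧ H * Hᴴ = (n : ℂ) • (1 : Matrix (Fin n) (Fin n) ℂ)

/-- `T` is a trade in `H`. -/
def IsTrade {n : ℕ} (H : Matrix (Fin n) (Fin n) ℂ) (T : Finset (Fin n × Fin n)) : Prop :=
  ∃ H' : Matrix (Fin n) (Fin n) ℂ, IsCHM H' ∧ H' ≠ H ∧
    (∀ p ∈ T, H' p.1 p.2 ≠ H p.1 p.2) ∧ ∀ p ∉ T, H' p.1 p.2 = H p.1 p.2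

theorem parseval {n : ℕ} (H : Matrix (Fin n) (Fin n) ℂ) (h : IsCHM H) (d : Fin n → ℂ) :
    ∑ r, ‖∑ j, d j * star (H r j)‖ ^ 2 = n * ∑ j, ‖d j‖ ^ 2 := by
  rcases Nat.eq_zero_or_pos n with rfl | hn
  · simp
  have hn' : (n : ℂ) ≠ 0 := by exact_mod_cast hn.ne'
  have h1 : H * ((n : ℂ)⁻¹ • Hᴴ) = 1 := by
    rw [Matrix.mul_smul, h.2, smul_smul, inv_mul_cancel₀ hn', one_smul]
  have h2 : Hᴴ * H = (n : ℂ) • (1 : Matrix (Fin n) (Fin n) ℂ) := by
    have := mul_eq_one_comm.1 h1
    rw [Matrix.smul_mul] at this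
    rw [← this, smul_smul, mul_inv_cancel₀ hn', one_smul]
  have h3 : ∀ j k, ∑ r, star (H r j) * H r k = if j = k then (n : ℂ) else 0 := by
    intro j k
    have := congrFun (congrFun h2 j) k
    simpa [Matrix.mul_apply, Matrix.one_apply] using this
  have sq : ∀ z : ℂ, ((‖z‖ ^ 2 : ℝ) : ℂ) = z * star z := by
    intro z; rw [Complex.star_def, Complex.mul_conj, Complex.normSq_eq_norm_sq]
  apply Complex.ofReal_injective
  rw [Complex.ofReal_sum, Complex.ofReal_mul, Complex.ofReal_sum]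
  simp only [sq, star_sum, star_mul', star_star, Finset.sum_mul_sum]
  rw [Finset.sum_comm]
  rw [Finset.mul_sum]
  refine Finset.sum_congr rfl fun j _ => ?_
  rw [Finset.sum_comm]
  have : ∀ k, ∑ r, d j * star (H r j) * (star (d k) * H r k) =
      d j * star (d k) * if j = k then (n : ℂ) else 0 := by
    intro k
    rw [← h3, Finset.mul_sum]
    exact Finset.sum_congr rfl fun r _ => by ring
  simp only [this]
  simp [mul_comm]

theorem result (n : ℕ) (H : Matrix (Fin n) (Fin n) ℂ) (hH : IsCHM H)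
    (T : Finset (Fin n × Fin n)) (hT : IsTrade H T) : n ≤ T.card := by
  classical
  obtain ⟨H', hH', hne, hin, hout⟩ := hT
  let A : Finset (Fin n) := T.image Prod.fst
  let B : Fin n → Finset (Fin n) := fun s => Finset.univ.filter fun j => (s, j) ∈ T
  have hrow : ∀ r ∉ A, ∀ j, H' r j = H r j := fun r hr j =>
    hout (r, j) fun h => hr (Finset.mem_image.2 ⟨_, h, rfl⟩)
  have key : ∀ s ∈ A, n ≤ A.card * (B s).card := by
    intro s hs
    let d : Fin n → ℂ := fun j => H' s j - H s j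
    have hd0 : ∀ j ∉ B s, d j = 0 := fun j hj =>
      sub_eq_zero.2 (hout (s, j) fun h => hj (by simp [B, h]))
    have horth : ∀ r ∉ A, ∑ j, d j * star (H r j) = 0 := by
      intro r hr
      have a1 := congrFun (congrFun hH'.2 s) r
      have a2 := congrFun (congrFun hH.2 s) r
      simp only [Matrix.mul_apply, conjTranspose_apply, hrow r hr] at a1 a2
      simp only [d, sub_mul, Finset.sum_sub_distrib, a1, a2, sub_self]
    have hpos : 0 < ∑ j, ‖d j‖ ^ 2 := by
      obtain ⟨p, hp, rfl⟩ := Finset.mem_image.1 hs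
      refine Finset.sum_pos' (fun _ _ => by positivity) ⟨p.2, Finset.mem_univ _, ?_⟩
      have : d p.2 ≠ 0 := sub_ne_zero.2 (hin p hp)
      positivity
    have hb : ∀ r, ‖∑ j, d j * star (H r j)‖ ^ 2 ≤ (B s).card * ∑ j, ‖d j‖ ^ 2 := by
      intro r
      have e1 : ∑ j, d j * star (H r j) = ∑ j ∈ B s, d j * star (H r j) :=
        (Finset.sum_subset (Finset.subset_univ _) fun j _ hj => by rw [hd0 j hj, zero_mul]).symm
      have e2 : ‖∑ j ∈ B s, d j * star (H r j)‖ ≤ ∑ j ∈ B s, ‖d j‖ := by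
        refine (norm_sum_le _ _).trans (le_of_eq (Finset.sum_congr rfl fun j _ => ?_))
        rw [norm_mul, norm_star, hH.1, mul_one]
      rw [e1]
      calc _ ≤ (∑ j ∈ B s, ‖d j‖) ^ 2 := by gcongr
        _ ≤ (B s).card * ∑ j ∈ B s, ‖d j‖ ^ 2 := sq_sum_le_card_mul_sum_sq
        _ ≤ _ := by
          gcongr
          exact Finset.subset_univ _
    have e3 : ∑ r, ‖∑ j, d j * star (H r j)‖ ^ 2 = ∑ r ∈ A, ‖∑ j, d j * star (H r j)‖ ^ 2 :=
      (Finset.sum_subset (Finset.subset_univ _) fun r _ hr => by rw [horth r hr]; simp).symm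
    have e4 := parseval H hH d
    have e5 : ∑ r ∈ A, ‖∑ j, d j * star (H r j)‖ ^ 2 ≤
        A.card * ((B s).card * ∑ j, ‖d j‖ ^ 2) := by
      have := Finset.sum_le_card_nsmul A _ _ (fun r _ => hb r)
      simpa using this
    have e6 : (n : ℝ) * ∑ j, ‖d j‖ ^ 2 ≤ (A.card * (B s).card) * ∑ j, ‖d j‖ ^ 2 := by
      rw [← e4, e3, mul_assoc]; exact e5
    have := le_of_mul_le_mul_right e6 hpos
    exact_mod_cast this
  have hA : 0 < A.card := by
    rw [Finset.card_pos]
    by_contra h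
    rw [Finset.not_nonempty_iff_eq_empty] at h
    exact hne (by ext r j; exact hrow r (by simp [h]) j)
  have hsum : T.card = ∑ s ∈ A, (B s).card := by
    rw [Finset.card_eq_sum_card_image Prod.fst T]
    refine Finset.sum_congr rfl fun s _ => ?_
    refine Finset.card_bij (fun p _ => p.2) ?_ ?_ ?_
    · intro p hp
      rw [Finset.mem_filter] at hp
      simp [B, ← hp.2, hp.1]
    · intro p hp q hq h
      rw [Finset.mem_filter] at hp hq
      exact Prod.ext (hp.2.trans hq.2.symm) h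
    · intro j hj
      exact ⟨(s, j), by simpa [B] using hj, rfl⟩
  have h1 : A.card * n ≤ A.card * T.card := by
    rw [hsum, Finset.mul_sum]
    have := Finset.card_nsmul_le_sum A (fun s => A.card * (B s).card) n key
    simpa using this
  exact Nat.le_of_mul_le_mul_left h1 hA

end Pool.Agent.Results.MP_f34218_co.TradeSize
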